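import Pool.Agent.V119.LD.Grp

/-!
# Ergodic measures of Cartan type actions along the orbits of arbitrary groups

`G_∞ = ∏_v SL(n_v, ℝ)` acts continuously on a Polish space `X`, and a group `A` (discrete or not)
acts on `X` by Borel automorphisms such that `a · (g · x) = (π(a) g π(a)⁻¹) · (a · x)` for `g` in
`G_∞`, where `π` is a homomorphism of `A` to the group `T⁺` of the elements of `G_∞` with diagonal
components and positive entries, with dense image in `T⁺`. Let `μ` be an `A`-invariant ergodic
probability measure and `H` ANY locally compact Polish group (with Haar measure `lam`) with a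
continuous homomorphism `φ` to `G_∞`, for instance a closed subgroup of `G_∞`; it need not be
normalised by the torus. It is shown that the following are equivalent:

* the elements of `H` which preserve `μ` form an open set (all of `H`, if `H` is connected);
* the set of `h` such that `μ` is not singular to its translate by `φ h` is not a null set;
* there is no Borel set `E` of full measure which meets every orbit of `H` in a null set;
* `μ` is not singular to some finite measure which is invariant under an open subgroup of `H`;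
* `μ` is not singular to some finite measure which is almost invariant in variation under the
  elements of `H` near `1`.

In this case `μ` is also invariant under the root group of `(i, j)` in the factor `v` if the
entry `(i, j)` in the factor `v` of some tangent direction of `H` is not zero.
-/

set_option autoImplicit false

namespace Pool.Agent.Results.MP_67388f_an.LeafwiseDichotomy

open MeasureTheory Set Filter Topology

/-- the group `∏_v SL(n_v, ℝ)` -/
abbrev G {I : Type*} (n : I → ℕ) := ∀ v : I, Matrix.SpecialLinearGroup (Fin (n v)) ℝ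

/-- diagonal matrices with positive entries -/
def PosDiagonal {m : ℕ} (t : Matrix.SpecialLinearGroup (Fin m) ℝ) : Prop :=
  (∀ i j, i ≠ j → t i j = 0) ∧ ∀ i, 0 < t i i

section defs

variable {I : Type*} {n : I → ℕ} {X : Type*} [MeasurableSpace X] [MulAction (G n) X]
  {H : Type*} [Group H]

/-- the set of the elements of `H` which preserve the measure `ρ` -/
def preserving (φ : H →* G n) (ρ : Measure X) : Set H :=
  {h | ρ.map (fun x => φ h • x) = ρ}

/-- `ρ` is almost invariant, in variation, under the elements of `H` near `1` -/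
def NearlyInvariant [TopologicalSpace H] (φ : H →* G n) (ρ : Measure X) : Prop :=
  ∀ ε : ℝ, 0 < ε → ∀ᶠ h : H in 𝓝 1, ∀ B : Set X, MeasurableSet B →
    ρ.real ((fun x => φ h • x) ⁻¹' B) ≤ ρ.real B + ε

/-- in the factor `v` the matrix `Z` is the limit of `(φ (h k) - 1) / σ k` for some sequence `h`
in `H` converging to `1` and some positive numbers `σ k` converging to `0` -/
def IsTangent [TopologicalSpace H] (φ : H →* G n) (v : I)
    (Z : Matrix (Fin (n v)) (Fin (n v)) ℝ) : Prop :=
  ∃ (h : ℕ → H) (σ : ℕ → ℝ), Tendsto h atTop (𝓝 1) ∧ (∀ k, 0 < σ k) ∧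
    Tendsto σ atTop (𝓝 0) ∧ ∀ p q, Tendsto (fun k => (φ (h k) v p q -
      (1 : Matrix (Fin (n v)) (Fin (n v)) ℝ) p q) / σ k) atTop (𝓝 (Z p q))

end defs

open Pool.Agent.TH277.MR in
theorem result {I : Type*} [Fintype I] [DecidableEq I] (n : I → ℕ)
    {X : Type*} [TopologicalSpace X] [PolishSpace X] [MeasurableSpace X] [BorelSpace X]
    [MulAction (G n) X] [ContinuousSMul (G n) X]
    {A : Type*} [Group A] [MulAction A X] [MeasurableConstSMul A X] (π : A →* G n)
    (hpos : ∀ (a : A) (v : I), PosDiagonal (π a v))
    (hact : ∀ (a : A) (g : G n) (x : X), a • g • x = (π a * g * (π a)⁻¹) • a • x)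
    (hdense : ∀ t : G n, (∀ v, PosDiagonal (t v)) → t ∈ closure (Set.range π))
    (μ : Measure X) [IsProbabilityMeasure μ] [ErgodicSMul A X μ]
    {H : Type*} [Group H] [TopologicalSpace H] [IsTopologicalGroup H] [LocallyCompactSpace H]
    [PolishSpace H] [MeasurableSpace H] [BorelSpace H] (lam : Measure H) [lam.IsHaarMeasure]
    (φ : H →* G n) (hφ : Continuous φ) :
    List.TFAE [
      IsOpen (preserving φ μ),
      lam {h : H | ¬ μ ⟂ₘ μ.map fun x => φ h • x} ≠ 0,
      ∀ E : Set X, MeasurableSet E → μ Eᶜ = 0 → ∃ x, lam {h : H | φ h • x ∈ E} ≠ 0,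
      ∃ ρ : Measure X, IsFiniteMeasure ρ ∧ ¬ μ ⟂ₘ ρ ∧ IsOpen (preserving φ ρ),
      ∃ ρ : Measure X, IsFiniteMeasure ρ ∧ ¬ μ ⟂ₘ ρ ∧ NearlyInvariant φ ρ] ∧
    (IsOpen (preserving φ μ) →
      (ConnectedSpace H → preserving φ μ = univ) ∧
      ∀ (v : I) (Z : Matrix (Fin (n v)) (Fin (n v)) ℝ), IsTangent φ v Z →
        ∀ i j : Fin (n v), i ≠ j → Z i j ≠ 0 → ∀ (x : ℝ) (u : G n), (∀ w, w ≠ v → u w = 1) →
          (u v : Matrix (Fin (n v)) (Fin (n v)) ℝ) = Matrix.transvection i j x →
          μ.map (fun y => u • y) = μ) := by
  have hπ : DenseAct X π := ⟨hpos, hact, hdense⟩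
  have hinv : ∀ a : A, μ.map (fun x => a • x) = μ := fun a =>
    (measurePreserving_smul a μ).map_eq
  have herg : Erg (maps A X) μ := by
    intro E hE hf
    have h1 := (inferInstance : ErgodicSMul A X μ).aeconst_of_forall_preimage_smul_ae_eq hE
      (fun a => hf _ ⟨a, rfl⟩)
    rcases eventuallyConst_set.1 h1 with h2 | h2
    · right
      exact h2
    · left
      rw [measure_eq_zero_iff_ae_notMem]
      exact h2
  have hz : ∀ g : G n, μ.map (fun x => g • x) = μ ∨ μ ⟂ₘ μ.map fun x => g • x := by
    intro g
    rcases translates_main hπ hinv hinv herg herg g with h | h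
    · exact Or.inl h.symm
    · exact Or.inr h
  have hself : ¬ μ ⟂ₘ μ := by
    intro h
    have h1 := (Measure.MutuallySingular.self_iff μ).1 h
    exact IsProbabilityMeasure.ne_zero μ h1
  have hset : {h : H | ¬ μ ⟂ₘ μ.map fun x => φ h • x} = preserving φ μ := by
    ext h
    rw [mem_ofPred_eq, preserving, mem_ofPred_eq]
    constructor
    · intro hh
      rcases hz (φ h) with h1 | h1
      · exact h1
      · exact absurd h1 hh
    · intro hh
      rw [hh]
      exact hself
  have hone : (1 : H) ∈ preserving φ μ := by
    change μ.map (fun x => φ 1 • x) = μ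
    simp
  constructor
  · tfae_have 1 → 2 := by
      intro h
      rw [hset]
      exact (h.measure_pos lam ⟨1, hone⟩).ne'
    tfae_have 2 → 3 := by
      intro h E hE hE'
      rw [hset] at h
      exact Pool.Agent.V119.LD.exists_point hφ (η := lam.toFinite) lam
        (toFinite_absolutelyContinuous lam) (absolutelyContinuous_toFinite lam) h hE hE'
    tfae_have 3 → 5 := by
      intro h
      have hfin : IsFiniteMeasure (Pool.Agent.V119.LD.smear φ lam.toFinite μ) :=
        Measure.isFiniteMeasure_map _ _
      exact ⟨_, hfin, Pool.Agent.V119.LD.not_sing_smear hφ (η := lam.toFinite) lam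
        (absolutelyContinuous_toFinite lam) h,
        Pool.Agent.V119.LD.smear_near hφ lam (toFinite_absolutelyContinuous lam)⟩
    tfae_have 5 → 1 := by
      rintro ⟨ρ, hρ, hns, hA⟩
      exact Pool.Agent.V119.LD.isOpen_inv φ hφ hz hns hA
    tfae_have 1 → 4 := fun h => ⟨μ, inferInstance, hself, h⟩
    tfae_have 4 → 5 := by
      rintro ⟨ρ, hρ, hns, ho⟩
      refine ⟨ρ, hρ, hns, fun ε hε => ?_⟩
      have h1 : (1 : H) ∈ preserving φ ρ := by
        change ρ.map (fun x => φ 1 • x) = ρ
        simp
      filter_upwards [ho.mem_nhds h1] with h hh B hB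
      have hh' : ρ.map (fun x => φ h • x) = ρ := hh
      have e : ρ.real ((fun x => φ h • x) ⁻¹' B) = ρ.real B := by
        rw [measureReal_def, measureReal_def, ← Measure.map_apply (measurable_const_smul _) hB,
          hh']
      rw [e]
      linarith
    tfae_finish
  · intro ho
    refine ⟨fun hc => ?_, ?_⟩
    · have hcl : IsClosed (preserving φ μ) := Pool.Agent.V119.LD.isClosed_inv φ hφ
      exact IsClopen.eq_univ ⟨hcl, ho⟩ ⟨1, hone⟩
    · rintro v Z ⟨h, σ, hh, hσ, hσ0, hZt⟩ i j hij hZ x u hu1 hu2
      have hev := hh.eventually (ho.mem_nhds hone)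
      obtain ⟨N, hN⟩ := eventually_atTop.1 hev
      have hu : u = sg v (tv hij x) := by
        funext w
        by_cases hw : w = v
        · subst hw
          change u w = Pi.mulSingle (M := fun v : I =>
            Matrix.SpecialLinearGroup (Fin (n v)) ℝ) w (tv hij x) w
          rw [Pi.mulSingle_eq_same]
          apply Subtype.ext
          exact hu2
        · rw [hu1 w hw]
          change 1 = Pi.mulSingle (M := fun v : I =>
            Matrix.SpecialLinearGroup (Fin (n v)) ℝ) v (tv hij x) w
          rw [Pi.mulSingle_eq_of_ne hw]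
      rw [hu]
      have hφ1 : Tendsto (fun k => φ (h (k + N))) atTop (𝓝 1) := by
        have h1 := (hφ.tendsto 1).comp (hh.comp (tendsto_add_atTop_nat N))
        rwa [map_one] at h1
      refine root_mem hπ hinv herg one_pos (fun k => φ (h (k + N))) hφ1 (fun k => ?_) hij
        (fun k => σ (k + N)) Z (fun k => hσ _) (hσ0.comp (tendsto_add_atTop_nat N))
        (fun p q => (hZt p q).comp (tendsto_add_atTop_nat N)) hZ x
      have h2 : μ.map (fun x => φ (h (k + N)) • x) = μ := hN (k + N) (Nat.le_add_left N k)
      intro B hB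
      change 1 ≤ μ.real B + (μ.map fun x => φ (h (k + N)) • x).real Bᶜ
      rw [h2, measureReal_add_measureReal_compl hB, probReal_univ]

end Pool.Agent.Results.MP_67388f_an.LeafwiseDichotomy
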